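import Pool.Agent.Helper74.Clique.Graph
import Pool.Agent.Helper74.Clique.DCIneq

/-!
The gadget graph with one family of control vertices (row, label), labelled left bits and free right bits.
-/
set_option autoImplicit false

namespace Clique
namespace G3
open Finset MvPolynomial

section

/-- the product of a weight `g v w * g w v` over the edges of a complete graph -/
theorem prod_edges {V S : Type*} [Fintype V] [DecidableEq V] [CommMonoid S] (D : Finset V) (f : Sym2 V → S)
    (g : V → V → S) (hg : ∀ v, g v v = 1)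
    (hf : ∀ v w, v ∈ D → w ∈ D → v ≠ w → f s(v, w) = g v w * g w v) :
    ∏ e ∈ edges D, f e = ∏ v ∈ D, ∏ w ∈ D, g v w := by
  classical
  have h1 : ∏ v ∈ D, ∏ w ∈ D, g v w = ∏ p ∈ D.offDiag, g p.1 p.2 := by
    rw [← Finset.prod_product']
    symm
    apply Finset.prod_subset
    · intro p hp
      rw [mem_offDiag] at hp
      exact mem_product.2 ⟨hp.1, hp.2.1⟩
    · intro p hp hp'
      rw [mem_product] at hp
      have h : p.1 = p.2 := by
        by_contra hne
        exact hp' (mem_offDiag.2 ⟨hp.1, hp.2, hne⟩)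
      rw [h]
      exact hg _
  rw [h1, ← Finset.prod_fiberwise_of_maps_to (s := D.offDiag) (t := edges D) (g := fun p => s(p.1, p.2))]
  · refine Finset.prod_congr rfl fun e he => ?_
    induction e using Sym2.ind with
    | _ v w =>
      obtain ⟨hv, hw, hvw⟩ := mem_edges.1 he
      rw [hf v w hv hw hvw]
      have h2 : D.offDiag.filter (fun p => s(p.1, p.2) = s(v, w)) = {(v, w), (w, v)} := by
        ext ⟨a, b⟩
        simp only [mem_filter, mem_offDiag, mem_insert, mem_singleton, Prod.mk.injEq, Sym2.eq_iff]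
        constructor
        · rintro ⟨-, h | h⟩
          · exact Or.inl h
          · exact Or.inr h
        · rintro (⟨rfl, rfl⟩ | ⟨rfl, rfl⟩)
          · exact ⟨⟨hv, hw, hvw⟩, Or.inl ⟨rfl, rfl⟩⟩
          · exact ⟨⟨hw, hv, hvw.symm⟩, Or.inr ⟨rfl, rfl⟩⟩
      rw [h2, Finset.prod_pair]
      intro h
      rw [Prod.mk.injEq] at h
      exact hvw h.1
  · rintro ⟨v, w⟩ h
    rw [mem_offDiag] at h
    exact mem_edges.2 h

end

variable (m q u : ℕ)

/-- the vertices: control, `z₀`, left bits, right bits, universal -/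
abbrev V : Type := (B m × Fin q) ⊕ (Unit ⊕ ((B m × Option (Fin q)) ⊕ ((B m × Bool) ⊕ Fin u)))

/-- the groups -/
abbrev Gp : Type := Unit ⊕ (Unit ⊕ (B m ⊕ (B m ⊕ Fin u)))

instance instDecEqB (m : ℕ) : DecidableEq (B m) := inferInstance

instance instDecEqR (m u : ℕ) : DecidableEq ((B m × Bool) ⊕ Fin u) := instDecidableEqSum

instance instDecEqLR (m q u : ℕ) : DecidableEq ((B m × Option (Fin q)) ⊕ ((B m × Bool) ⊕ Fin u)) :=
  instDecidableEqSum

instance instDecEqZ (m q u : ℕ) : DecidableEq (Unit ⊕ ((B m × Option (Fin q)) ⊕ ((B m × Bool) ⊕ Fin u))) :=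
  instDecidableEqSum

instance instDecEqV (m q u : ℕ) : DecidableEq (V m q u) := instDecidableEqSum

theorem card_V : Fintype.card (V m q u) = 2 * (2 ^ m * q) + 3 * 2 ^ m + 1 + u := by
  simp only [Fintype.card_sum, Fintype.card_prod, Fintype.card_fun, Fintype.card_bool, Fintype.card_fin,
    Fintype.card_unit, Fintype.card_option]
  ring

theorem card_Gp : Fintype.card (Gp m u) = 2 * 2 ^ m + 2 + u := by
  simp only [Fintype.card_sum, Fintype.card_fun, Fintype.card_bool, Fintype.card_fin, Fintype.card_unit]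
  ring

variable {m q u}

/-- the group of a vertex -/
def grp : V m q u → Gp m u
  | Sum.inl _ => Sum.inl ()
  | Sum.inr (Sum.inl _) => Sum.inr (Sum.inl ())
  | Sum.inr (Sum.inr (Sum.inl (g, _))) => Sum.inr (Sum.inr (Sum.inl g))
  | Sum.inr (Sum.inr (Sum.inr (Sum.inl (h, _)))) => Sum.inr (Sum.inr (Sum.inr (Sum.inl h)))
  | Sum.inr (Sum.inr (Sum.inr (Sum.inr i))) => Sum.inr (Sum.inr (Sum.inr (Sum.inr i)))

/-- a control vertex and a left bit vertex which are not adjacent -/
def inc : V m q u → V m q u → Prop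
  | Sum.inl y, Sum.inr (Sum.inr (Sum.inl (g, b))) => b ≠ vl y g
  | _, _ => False

/-- not adjacent -/
def bad (v w : V m q u) : Prop := grp v = grp w ∨ inc v w ∨ inc w v

theorem bad_comm (v w : V m q u) : bad v w ↔ bad w v := by
  unfold bad
  constructor
  · rintro (h | h | h)
    · exact Or.inl h.symm
    · exact Or.inr (Or.inr h)
    · exact Or.inr (Or.inl h)
  · rintro (h | h | h)
    · exact Or.inl h.symm
    · exact Or.inr (Or.inr h)
    · exact Or.inr (Or.inl h)

/-- the weights -/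
noncomputable def ve (s : B m × Fin q → ℂ) (t : ℂ) : V m q u → V m q u → MvPolynomial ((B m × Fin q) × B m) ℂ
  | Sum.inl y, Sum.inr (Sum.inl _) => C (s y)
  | Sum.inr (Sum.inr (Sum.inl (g, some a))), Sum.inr (Sum.inr (Sum.inr (Sum.inl (h, true)))) => X ((g, a), h)
  | Sum.inr (Sum.inr (Sum.inr (Sum.inl (_, true)))), Sum.inr (Sum.inr (Sum.inr (Sum.inl (_, false)))) => C t
  | _, _ => 1

/-- the weight of a pair -/
noncomputable def pw (s : B m × Fin q → ℂ) (t : ℂ) (v w : V m q u) : MvPolynomial ((B m × Fin q) × B m) ℂ :=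
  open Classical in if bad v w then 0 else ve s t v w * ve s t w v

theorem pw_comm (s : B m × Fin q → ℂ) (t : ℂ) (v w : V m q u) : pw s t v w = pw s t w v := by
  unfold pw
  by_cases h : bad v w
  · rw [if_pos h, if_pos ((bad_comm v w).1 h)]
  · rw [if_neg h, if_neg (fun h' => h ((bad_comm v w).2 h')), mul_comm]

/-- the weight of an edge -/
noncomputable def psi (s : B m × Fin q → ℂ) (t : ℂ) : Sym2 (V m q u) → MvPolynomial ((B m × Fin q) × B m) ℂ :=
  Sym2.lift ⟨pw s t, pw_comm s t⟩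

/-- the section -/
def sec (κ : (B m × Fin q) × (B m → Bool)) : Gp m u → V m q u
  | Sum.inl _ => Sum.inl κ.1
  | Sum.inr (Sum.inl _) => Sum.inr (Sum.inl ())
  | Sum.inr (Sum.inr (Sum.inl g)) => Sum.inr (Sum.inr (Sum.inl (g, vl κ.1 g)))
  | Sum.inr (Sum.inr (Sum.inr (Sum.inl h))) => Sum.inr (Sum.inr (Sum.inr (Sum.inl (h, κ.2 h))))
  | Sum.inr (Sum.inr (Sum.inr (Sum.inr i))) => Sum.inr (Sum.inr (Sum.inr (Sum.inr i)))

theorem grp_sec (κ : (B m × Fin q) × (B m → Bool)) (γ : Gp m u) : grp (sec κ γ) = γ := by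
  rcases γ with _ | _ | g | h | i <;> rfl

theorem sec_inj (κ : (B m × Fin q) × (B m → Bool)) : Function.Injective (sec κ : Gp m u → V m q u) :=
  Function.LeftInverse.injective (grp_sec κ)

theorem not_inc_sec (κ : (B m × Fin q) × (B m → Bool)) (γ γ' : Gp m u) :
    ¬ inc (sec κ γ) (sec κ γ' : V m q u) := by
  rcases γ with _ | _ | g | h | i <;> rcases γ' with _ | _ | g' | h' | i' <;>
    simp [sec, inc]

theorem not_bad_sec (κ : (B m × Fin q) × (B m → Bool)) (γ γ' : Gp m u) (h : γ ≠ γ') :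
    ¬ bad (sec κ γ) (sec κ γ' : V m q u) := by
  rintro (h1 | h1 | h1)
  · rw [grp_sec, grp_sec] at h1
    exact h h1
  · exact not_inc_sec κ γ γ' h1
  · exact not_inc_sec κ γ' γ h1

/-- the clique -/
def DD (u : ℕ) (κ : (B m × Fin q) × (B m → Bool)) : Finset (V m q u) := univ.map ⟨sec κ, sec_inj κ⟩

theorem mem_DD {κ : (B m × Fin q) × (B m → Bool)} {v : V m q u} : v ∈ DD u κ ↔ ∃ γ, sec κ γ = v := by
  unfold DD
  simp

theorem card_DD (κ : (B m × Fin q) × (B m → Bool)) : (DD u κ).card = Fintype.card (Gp m u) := by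
  unfold DD
  rw [card_map, card_univ]

theorem DD_inj : Function.Injective (DD u : (B m × Fin q) × (B m → Bool) → Finset (V m q u)) := by
  intro κ κ' h
  have key : ∀ γ : Gp m u, (sec κ γ : V m q u) = sec κ' γ := by
    intro γ
    have h1 : sec κ γ ∈ DD u κ' := by
      rw [← h]
      exact mem_DD.2 ⟨_, rfl⟩
    obtain ⟨γ', hγ⟩ := mem_DD.1 h1
    have h2 := congrArg grp hγ
    rw [grp_sec, grp_sec] at h2
    rw [← hγ, h2]
  refine Prod.ext ?_ ?_
  · have := key (Sum.inl ())
    simpa [sec] using this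
  · funext g
    have := key (Sum.inr (Sum.inr (Sum.inr (Sum.inl g))))
    simpa [sec] using this

/-- cliques of the right size are sections -/
theorem eq_DD {D : Finset (V m q u)} (hc : D.card = Fintype.card (Gp m u))
    (hD : ∀ v ∈ D, ∀ w ∈ D, v ≠ w → ¬ bad v w) : ∃ κ : (B m × Fin q) × (B m → Bool), D = DD u κ := by
  classical
  have hinj : Set.InjOn grp (D : Set (V m q u)) := by
    intro v hv w hw h
    by_contra hne
    exact hD v hv w hw hne (Or.inl h)
  have himg : D.image grp = univ := by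
    apply Finset.eq_univ_of_card
    rw [Finset.card_image_of_injOn hinj, hc]
  have hex : ∀ γ : Gp m u, ∃ v ∈ D, grp v = γ := by
    intro γ
    have := himg ▸ mem_univ γ
    obtain ⟨v, hv, h⟩ := mem_image.1 this
    exact ⟨v, hv, h⟩
  have hctl : ∃ y : B m × Fin q, Sum.inl y ∈ D := by
    obtain ⟨v, hv, h⟩ := hex (Sum.inl ())
    rcases v with y | _ | ⟨g, b⟩ | ⟨g, b⟩ | i
    · exact ⟨y, hv⟩
    all_goals simp [grp] at h
  have hrb : ∀ g : B m, ∃ b : Bool, Sum.inr (Sum.inr (Sum.inr (Sum.inl (g, b)))) ∈ D := by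
    intro g
    obtain ⟨v, hv, h⟩ := hex (Sum.inr (Sum.inr (Sum.inr (Sum.inl g))))
    rcases v with y | _ | ⟨g', b⟩ | ⟨g', b⟩ | i
    · simp [grp] at h
    · simp [grp] at h
    · simp [grp] at h
    · simp only [grp, Sum.inr.injEq, Sum.inl.injEq] at h
      subst h
      exact ⟨b, hv⟩
    · simp [grp] at h
  obtain ⟨y, hy⟩ := hctl
  choose b hb using hrb
  refine ⟨(y, b), ?_⟩
  symm
  apply Finset.eq_of_subset_of_card_le
  · intro v hv
    obtain ⟨γ, rfl⟩ := mem_DD.1 hv
    obtain ⟨w, hw, h⟩ := hex γ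
    rcases γ with _ | _ | g | g | i
    · exact hy
    · rcases w with y' | _ | ⟨g', b'⟩ | ⟨g', b'⟩ | i
      · simp [grp] at h
      · exact hw
      all_goals simp [grp] at h
    · rcases w with y' | _ | ⟨g', b'⟩ | ⟨g', b'⟩ | i
      · simp [grp] at h
      · simp [grp] at h
      · simp only [grp, Sum.inr.injEq, Sum.inl.injEq] at h
        subst h
        have h1 := hD _ hy _ hw (by simp)
        have h2 : b' = vl y g' := by
          by_contra hb'
          exact h1 (Or.inr (Or.inl hb'))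
        simp only [sec]
        rw [← h2]
        exact hw
      all_goals simp [grp] at h
    · exact hb g
    · rcases w with y' | _ | ⟨g', b'⟩ | ⟨g', b'⟩ | i'
      · simp [grp] at h
      · simp [grp] at h
      · simp [grp] at h
      · simp [grp] at h
      · simp only [grp, Sum.inr.injEq] at h
        subst h
        exact hw
  · rw [hc, card_DD]

section

variable (s : B m × Fin q → ℂ) (t : ℂ)

theorem ve_ctl (y : B m × Fin q) (w : (B m × Option (Fin q)) ⊕ ((B m × Bool) ⊕ Fin u)) :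
    ve s t (Sum.inl y) (Sum.inr (Sum.inr w) : V m q u) = 1 := by
  rcases w with ⟨g, _ | a⟩ | ⟨h, _ | _⟩ | i <;> rfl

theorem ve_ctl_z (y : B m × Fin q) (x : Unit) :
    ve s t (Sum.inl y) (Sum.inr (Sum.inl x) : V m q u) = C (s y) := rfl

theorem ve_z (x : Unit) (w : V m q u) : ve s t (Sum.inr (Sum.inl x)) w = 1 := by
  rcases w with y | _ | ⟨g, _ | a⟩ | ⟨h, _ | _⟩ | i <;> rfl

theorem ve_u (i : Fin u) (w : V m q u) : ve s t (Sum.inr (Sum.inr (Sum.inr (Sum.inr i)))) w = 1 := by
  rcases w with y | _ | ⟨g, _ | a⟩ | ⟨h, _ | _⟩ | i <;> rfl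

theorem ve_left_ctl (x : B m × Option (Fin q)) (y : B m × Fin q) :
    ve s t (Sum.inr (Sum.inr (Sum.inl x))) (Sum.inl y : V m q u) = 1 := by
  rcases x with ⟨g, _ | a⟩ <;> rfl

theorem ve_left_z (x : B m × Option (Fin q)) (y : Unit) :
    ve s t (Sum.inr (Sum.inr (Sum.inl x))) (Sum.inr (Sum.inl y) : V m q u) = 1 := by
  rcases x with ⟨g, _ | a⟩ <;> rfl

theorem ve_left_left (x y : B m × Option (Fin q)) :
    ve s t (Sum.inr (Sum.inr (Sum.inl x))) (Sum.inr (Sum.inr (Sum.inl y)) : V m q u) = 1 := by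
  rcases x with ⟨g, _ | a⟩ <;> rcases y with ⟨g', _ | a'⟩ <;> rfl

theorem ve_left_u (x : B m × Option (Fin q)) (i : Fin u) :
    ve s t (Sum.inr (Sum.inr (Sum.inl x))) (Sum.inr (Sum.inr (Sum.inr (Sum.inr i))) : V m q u) = 1 := by
  rcases x with ⟨g, _ | a⟩ <;> rfl

theorem ve_right_ctl (x : B m × Bool) (y : B m × Fin q) :
    ve s t (Sum.inr (Sum.inr (Sum.inr (Sum.inl x)))) (Sum.inl y : V m q u) = 1 := by
  rcases x with ⟨g, _ | _⟩ <;> rfl

theorem ve_right_z (x : B m × Bool) (y : Unit) :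
    ve s t (Sum.inr (Sum.inr (Sum.inr (Sum.inl x)))) (Sum.inr (Sum.inl y) : V m q u) = 1 := by
  rcases x with ⟨g, _ | _⟩ <;> rfl

theorem ve_right_left (x : B m × Bool) (y : B m × Option (Fin q)) :
    ve s t (Sum.inr (Sum.inr (Sum.inr (Sum.inl x)))) (Sum.inr (Sum.inr (Sum.inl y)) : V m q u) = 1 := by
  rcases x with ⟨g, _ | _⟩ <;> rcases y with ⟨g', _ | a'⟩ <;> rfl

theorem ve_right_u (x : B m × Bool) (i : Fin u) :
    ve s t (Sum.inr (Sum.inr (Sum.inr (Sum.inl x)))) (Sum.inr (Sum.inr (Sum.inr (Sum.inr i))) : V m q u) = 1 := by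
  rcases x with ⟨g, _ | _⟩ <;> rfl

theorem ve_right_right (h h' : B m) (b b' : Bool) :
    ve s t (Sum.inr (Sum.inr (Sum.inr (Sum.inl (h, b))))) (Sum.inr (Sum.inr (Sum.inr (Sum.inl (h', b')))) : V m q u) =
      if b = true then (if b' = false then C t else 1) else 1 := by
  cases b <;> cases b' <;> rfl

theorem ve_self (v : V m q u) : ve s t v v = 1 := by
  rcases v with y | _ | ⟨g, _ | a⟩ | ⟨h, _ | _⟩ | i <;> rfl

/-- the product over the pairs of the section -/
theorem prod_sec (κ : (B m × Fin q) × (B m → Bool)) :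
    ∏ γ : Gp m u, ∏ γ' : Gp m u, ve s t (sec κ γ) (sec κ γ' : V m q u) =
      C (s κ.1) * ((∏ g : B m, ∏ h : B m, ve s t (Sum.inr (Sum.inr (Sum.inl (g, vl κ.1 g))))
        (Sum.inr (Sum.inr (Sum.inr (Sum.inl (h, κ.2 h)))) : V m q u)) *
        ∏ h : B m, ∏ h' : B m, ve s t (Sum.inr (Sum.inr (Sum.inr (Sum.inl (h, κ.2 h)))))
        (Sum.inr (Sum.inr (Sum.inr (Sum.inl (h', κ.2 h')))) : V m q u)) := by
  simp only [Fintype.prod_sum_type, sec, ve_ctl, ve_z, ve_u, ve_left_ctl, ve_left_z, ve_left_left, ve_left_u,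
    ve_right_ctl, ve_right_z, ve_right_left, ve_right_u, ve_self, ve_ctl_z, Finset.prod_const_one, one_mul, mul_one,
    Finset.prod_const, Finset.card_univ, Fintype.card_unit, pow_one]

theorem prod_right (v : B m → Bool) :
    ∏ h : B m, ∏ h' : B m, ve s t (Sum.inr (Sum.inr (Sum.inr (Sum.inl (h, v h)))))
        (Sum.inr (Sum.inr (Sum.inr (Sum.inl (h', v h')))) : V m q u) = C (t ^ (nt v * nf v)) := by
  simp only [ve_right_right]
  have h1 : ∀ h : B m, ∏ h' : B m, (if v h = true then (if v h' = false then (C t : MvPolynomial ((B m × Fin q) × B m) ℂ)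
      else 1) else 1) = if v h = true then C t ^ nf v else 1 := by
    intro h
    split_ifs
    · rw [Finset.prod_ite, Finset.prod_const_one, mul_one, Finset.prod_const]
      rfl
    · rw [Finset.prod_const_one]
  simp only [h1]
  rw [Finset.prod_ite, Finset.prod_const_one, mul_one, Finset.prod_const, ← pow_mul, mul_comm, C_pow]
  rfl

theorem prod_left (κ : (B m × Fin q) × (B m → Bool)) :
    ∏ g : B m, ∏ h : B m, ve s t (Sum.inr (Sum.inr (Sum.inl (g, vl κ.1 g))))
        (Sum.inr (Sum.inr (Sum.inr (Sum.inl (h, κ.2 h)))) : V m q u) =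
      ∏ x : (B m × Fin q) × B m, X x ^ (SB m q κ.1 x.1 * (if κ.2 x.2 = true then 1 else 0)) := by
  classical
  rw [Fintype.prod_prod_type, Fintype.prod_prod_type]
  refine Finset.prod_congr rfl fun g _ => ?_
  rw [Finset.prod_eq_single κ.1.2]
  · refine Finset.prod_congr rfl fun h _ => ?_
    unfold SB vl
    rw [if_pos rfl]
    have h0 := tt_le m κ.1.1 g
    by_cases h1 : tt m κ.1.1 g = 1
    · rw [if_pos h1, h1, one_mul]
      rcases hb : κ.2 h with _ | _
      · rfl
      · rw [if_pos rfl, pow_one]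
        rfl
    · have h2 : tt m κ.1.1 g = 0 := by omega
      rw [if_neg h1, h2, zero_mul, pow_zero]
      rfl
  · intro a _ ha
    apply Finset.prod_eq_one
    intro h _
    unfold SB
    rw [if_neg (Ne.symm ha), zero_mul, pow_zero]
  · intro h
    exact absurd (mem_univ _) h

/-- the weight of the clique -/
theorem prod_psi (κ : (B m × Fin q) × (B m → Bool)) :
    ∏ e ∈ edges (DD u κ), psi s t e =
      C (s κ.1 * t ^ (nt κ.2 * nf κ.2)) *
        ∏ x : (B m × Fin q) × B m, X x ^ (SB m q κ.1 x.1 * (if κ.2 x.2 = true then 1 else 0)) := by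
  classical
  rw [prod_edges (DD u κ) (psi s t) (ve s t) (ve_self s t)]
  · unfold DD
    rw [Finset.prod_map]
    simp only [Finset.prod_map, Function.Embedding.coeFn_mk]
    rw [prod_sec, prod_right, prod_left, C_mul]
    ring
  · intro v w hv hw hvw
    obtain ⟨γ, rfl⟩ := mem_DD.1 hv
    obtain ⟨γ', rfl⟩ := mem_DD.1 hw
    unfold psi
    rw [Sym2.lift_mk]
    simp only [pw]
    rw [if_neg (not_bad_sec κ γ γ' fun h => hvw (by rw [h]))]

/-- **The substitution.** -/
theorem aeval_graph3 {Ω : Type} [Fintype Ω] [DecidableEq Ω] {k : ℕ} (hk : k = Fintype.card (Gp m u)) (hk2 : 2 ≤ k)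
    {f : MvPolynomial (Sym2 Ω) ℂ} (hf : CliqueSupport k f) (ι : V m q u ↪ Ω) :
    aeval (ext ι (psi s t)) f = ∑ κ : (B m × Fin q) × (B m → Bool), C (coeff (mon ((DD u κ).map ι)) f) *
      (C (s κ.1 * t ^ (nt κ.2 * nf κ.2)) *
        ∏ x : (B m × Fin q) × B m, X x ^ (SB m q κ.1 x.1 * (if κ.2 x.2 = true then 1 else 0))) := by
  classical
  rw [aeval_ext hk2 hf]
  symm
  refine Finset.sum_of_injOn (fun κ => DD u κ) (fun κ _ κ' _ h => DD_inj h) ?_ ?_ ?_
  · intro κ _
    rw [mem_coe, mem_powersetCard]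
    exact ⟨subset_univ _, by rw [card_DD, hk]⟩
  · intro D hD hD'
    rw [mem_powersetCard] at hD
    have : ∃ v ∈ D, ∃ w ∈ D, v ≠ w ∧ bad v w := by
      by_contra hcon
      push Not at hcon
      obtain ⟨κ, rfl⟩ := eq_DD (hD.2.trans hk) hcon
      exact hD' ⟨κ, mem_coe.2 (mem_univ _), rfl⟩
    obtain ⟨v, hv, w, hw, hne, hb⟩ := this
    rw [Finset.prod_eq_zero (i := s(v, w)) (mem_edges.2 ⟨hv, hw, hne⟩), mul_zero]
    unfold psi
    rw [Sym2.lift_mk]
    simp only [pw]
    rw [if_pos hb]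
  · intro κ _
    rw [prod_psi]
    rfl

/-- the weights are affine -/
theorem totalDegree_pw (v w : V m q u) : (pw s t v w).totalDegree ≤ 1 := by
  have key : ∀ v w : V m q u, (ve s t v w).totalDegree = 0 ∨
      (ve s t w v = 1 ∧ (ve s t v w).totalDegree ≤ 1) := by
    intro v w
    rcases v with y | _ | ⟨g, _ | a⟩ | ⟨h, _ | _⟩ | i <;> rcases w with y' | _ | ⟨g', _ | a'⟩ | ⟨h', _ | _⟩ | i' <;>
      first
      | exact Or.inl totalDegree_one
      | exact Or.inl (totalDegree_C _)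
      | exact Or.inr ⟨rfl, (totalDegree_X _).le⟩
  unfold pw
  split_ifs
  · rw [totalDegree_zero]
    exact Nat.zero_le _
  · refine (totalDegree_mul _ _).trans ?_
    rcases key v w with h1 | ⟨h1, h1'⟩ <;> rcases key w v with h2 | ⟨h2, h2'⟩
    · omega
    · rw [h1]
      omega
    · rw [h1, totalDegree_one]
      omega
    · rw [h1, totalDegree_one]
      omega

end

/-- **The gadget graph for determinantal complexity.** -/
theorem _root_.Clique.graph3 {Ω : Type} [Fintype Ω] [DecidableEq Ω] (m q u k : ℕ)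
    (hn : 2 * (2 ^ m * q) + 3 * 2 ^ m + 1 + u ≤ Fintype.card Ω) (hk : k = 2 * 2 ^ m + 2 + u)
    (f : MvPolynomial (Sym2 Ω) ℂ) (hf : CliqueSupport k f) :
    ∃ c : (B m × Fin q) → (B m → Bool) → ℂ, (∀ ρ v, c ρ v ≠ 0) ∧ (∀ ρ, c ρ (fun _ => false) = 1) ∧
      ∀ t : ℂ, ∃ φ : Sym2 Ω → MvPolynomial ((B m × Fin q) × B m) ℂ, (∀ e, (φ e).totalDegree ≤ 1) ∧
        aeval φ f = PP (SB m q) c t := by
  classical
  rw [← card_V] at hn
  obtain ⟨ι⟩ := Function.Embedding.nonempty_of_card_le hn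
  have hk' : k = Fintype.card (Gp m u) := by rw [card_Gp, hk]
  have hk2 : 2 ≤ k := by omega
  set co : (B m × Fin q) × (B m → Bool) → ℂ := fun κ => coeff (mon ((DD u κ).map ι)) f with hco
  have hco0 : ∀ κ, co κ ≠ 0 := by
    intro κ
    rw [hco]
    refine (hf _).2 ⟨(DD u κ).map ι, ?_, rfl⟩
    rw [card_map, card_DD, hk']
  refine ⟨fun ρ v => co (ρ, v) * (co (ρ, fun _ => false))⁻¹, ?_, ?_, ?_⟩
  · intro ρ v
    exact mul_ne_zero (hco0 _) (inv_ne_zero (hco0 _))
  · intro ρ
    exact mul_inv_cancel₀ (hco0 _)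
  · intro t
    refine ⟨ext ι (psi (fun ρ => (co (ρ, fun _ => false))⁻¹) t), ?_, ?_⟩
    · intro e
      unfold ext
      split_ifs with h
      · generalize h.choose = e'
        induction e' using Sym2.ind with
        | _ v w =>
          unfold psi
          rw [Sym2.lift_mk]
          exact totalDegree_pw _ _ v w
      · rw [totalDegree_zero]
        exact Nat.zero_le _
    · rw [aeval_graph3 _ t hk' hk2 hf ι, PP, Fintype.sum_prod_type]
      refine Finset.sum_congr rfl fun ρ _ => ?_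
      refine Finset.sum_congr rfl fun v _ => ?_
      rw [← mul_assoc, ← C_mul]
      congr 2
      simp only [hco]
      ring

end G3
end Clique
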